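import Pool.Agent.X88.ThirdOrder

set_option autoImplicit false

namespace Pool.Agent.Results.MP_db9acb_an.UnboundedSolution

/-- **Q1 is true.**  There are parameters `α > 0`, `C > 0` and a solution of
`x_{n+1} = (α + x_n) / (C x_{n-1} + x_{n-2})` (here `x n` stands for `x_{n-2}`, so the initial
values are `x 0, x 1, x 2`), with positive initial values and positive denominators, which is
unbounded. -/
theorem result :
    ∃ α C : ℝ, 0 < α ∧ 0 < C ∧ ∃ x : ℕ → ℝ,
      (0 < x 0 ∧ 0 < x 1 ∧ 0 < x 2) ∧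
      (∀ n : ℕ, 0 < C * x (n + 1) + x n) ∧
      (∀ n : ℕ, x (n + 3) = (α + x (n + 2)) / (C * x (n + 1) + x n)) ∧
      ¬ BddAbove (Set.range x) := by
  obtain ⟨α, C, hα, hC, x, hpos, hrec, hub⟩ := Pool.Agent.X88.ThirdOrder.exists_unbounded
  refine ⟨α, C, hα, hC, x, ⟨hpos 0, hpos 1, hpos 2⟩, fun n => (hrec n).1,
    fun n => (hrec n).2, ?_⟩
  rintro ⟨M, hM⟩
  obtain ⟨n, hn⟩ := hub M
  have := hM (Set.mem_range_self n)
  linarith

end Pool.Agent.Results.MP_db9acb_an.UnboundedSolution
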